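import Pool.Agent.Y57.AK.Stm

set_option autoImplicit false

/-! # Project AK57, task AK-TEN (by helper383): the tensor power trick -/

open Finset

namespace Pool.Agent.Y383.AK

open Pool.Agent.Y57.AK

lemma bern (y r : ℕ) : (y + r) * y ^ r ≤ y * (y + 1) ^ r := by
  induction r with
  | zero => simp
  | succ r ih =>
    calc (y + (r + 1)) * y ^ (r + 1) = ((y + r + 1) * y) * y ^ r := by ring
      _ ≤ ((y + 1) * (y + r)) * y ^ r := Nat.mul_le_mul_right _ (by nlinarith)
      _ = (y + 1) * ((y + r) * y ^ r) := by ring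
      _ ≤ (y + 1) * (y * (y + 1) ^ r) := Nat.mul_le_mul_left _ ih
      _ = y * (y + 1) ^ (r + 1) := by ring

lemma root_le {x y k : ℕ} (h : ∀ r : ℕ, 1 ≤ r → x ^ r ≤ k * y ^ r) : x ≤ y := by
  by_contra hxy
  push Not at hxy
  rcases Nat.eq_zero_or_pos y with rfl | hy
  · have h1 := h 1 le_rfl
    simp only [pow_one, mul_zero] at h1
    omega
  · set r := y * k + 1 with hr
    have h1 := h r (by omega)
    have h2 := bern y r
    have h3 : (y + 1) ^ r ≤ x ^ r := Nat.pow_le_pow_left hxy r
    have h4 : (y + r) * y ^ r ≤ (y * k) * y ^ r := by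
      calc (y + r) * y ^ r ≤ y * (y + 1) ^ r := h2
        _ ≤ y * (k * y ^ r) := Nat.mul_le_mul_left _ (h3.trans h1)
        _ = (y * k) * y ^ r := by ring
    have h5 := Nat.le_of_mul_le_mul_right h4 (pow_pos hy r)
    omega

/-- uncurrying -/
def unc {ι : Type} {r : ℕ} (c : Fin r → ι → ℚ) : Fin r × ι → ℚ := fun p => c p.1 p.2

lemma unc_inj {ι : Type} {r : ℕ} : Function.Injective (unc : (Fin r → ι → ℚ) → _) := by
  intro c c' h
  funext j i
  exact congrFun h (j, i)

theorem t_TEN : S_LIM → S_TEN := by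
  intro hL ι _ _ S q W D v J hS hD hq hJ hW
  refine root_le (k := J.card) fun r _ => ?_
  set D' : Finset (Fin r × ι → ℚ) := (Fintype.piFinset fun _ : Fin r => D).image unc with hD'
  set v' : (Fin r × ι → ℚ) → (Fin r × ι → ℚ) := fun w p => v (fun i => w (p.1, i)) p.2 with hv'
  have h1 := hL (Fin r × ι) (fun p => S p.2) q D' v' J (fun p => hS p.2) (by
    intro d hd p
    obtain ⟨c, hc, rfl⟩ := mem_image.1 hd
    exact hD _ (Fintype.mem_piFinset.1 hc p.1) p.2) hq hJ
  have h2 : D'.card = D.card ^ r := by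
    rw [hD', card_image_of_injective _ unc_inj, Fintype.card_piFinset, prod_const, card_univ,
      Fintype.card_fin]
  have h3 : ∀ s ∈ J, (D'.image fun d i => d i + s * v' d i).card ≤ W ^ r := by
    intro s hs
    have h4 : (D'.image fun d i => d i + s * v' d i) ⊆
        (Fintype.piFinset fun _ : Fin r => D.image fun d i => d i + s * v d i).image unc := by
      intro x hx
      obtain ⟨d, hd, rfl⟩ := mem_image.1 hx
      obtain ⟨c, hc, rfl⟩ := mem_image.1 hd
      refine mem_image.2 ⟨fun j i => c j i + s * v (c j) i, ?_, rfl⟩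
      exact Fintype.mem_piFinset.2 fun j =>
        mem_image.2 ⟨c j, Fintype.mem_piFinset.1 hc j, rfl⟩
    refine (card_le_card h4).trans (card_image_le.trans ?_)
    rw [Fintype.card_piFinset, prod_const, card_univ, Fintype.card_fin]
    exact Nat.pow_le_pow_left (hW s hs) r
  have h5 : ∑ s ∈ J, (D'.image fun d i => d i + s * v' d i).card ≤ J.card * W ^ r := by
    refine (sum_le_card_nsmul _ _ _ h3).trans (le_of_eq ?_)
    rw [smul_eq_mul]
  have h6 := h1.trans (Nat.mul_le_mul_right _ h5)
  rw [h2, Fintype.card_prod, Fintype.card_fin, mul_comm r (Fintype.card ι), pow_mul, pow_mul] at h6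
  calc (D.card * J.card ^ Fintype.card ι) ^ r = D.card ^ r * (J.card ^ Fintype.card ι) ^ r :=
        mul_pow _ _ _
    _ ≤ J.card * W ^ r * ((J.card + q - 1) ^ Fintype.card ι) ^ r := h6
    _ = J.card * (W * (J.card + q - 1) ^ Fintype.card ι) ^ r := by rw [mul_pow, mul_assoc]

end Pool.Agent.Y383.AK
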